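import Pool.Agent.helper65.GD.SpecF

set_option autoImplicit false

namespace Pool.Agent.GD

open Finset Metric Filter Topology

/-- the recursion in terms of `gy` -/
theorem XQM_rec {N : ℕ} (w : Fin N → ℝ) (x : Fin N → ℂ) (ω : ℕ → ℂ) (s : ℂ) (hr : Rec s (mom w x) ω) (n : ℕ) :
    ((n + 1 : ℕ) : ℂ) * ω (n + 1) = s * ∑ l, (w l : ℂ) * (x l * gy ω (x l) n) := by
  rw [hr.2 (n + 1)]
  congr 1
  have h1 : ∀ q ∈ range (n + 1), mom w x (n + 1 - q) * ω q = ∑ l, (w l : ℂ) * (x l * (x l ^ (n - q) * ω q)) := by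
    intro q hq
    have hq2 := mem_range.1 hq
    rw [mom, Finset.sum_mul]
    refine Finset.sum_congr rfl fun l _ => ?_
    rw [show n + 1 - q = (n - q) + 1 by omega, pow_succ]
    ring
  rw [Finset.sum_congr rfl h1, Finset.sum_comm]
  refine Finset.sum_congr rfl fun l _ => ?_
  rw [gy, Finset.mul_sum, Finset.mul_sum]

/-- the variance -/
theorem XQM_var {N : ℕ} (w : Fin N → ℝ) (x : Fin N → ℂ) (hA : Atomic N w x) :
    ∑ l, w l * ‖x l - mom w x 1‖ ^ 2 = 1 - ‖mom w x 1‖ ^ 2 := by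
  obtain ⟨hw0, hw1, hx⟩ := hA
  set b := mom w x 1 with hb
  have h1 : ∀ l, w l * ‖x l - b‖ ^ 2 = w l * 1 - 2 * ((w l : ℂ) * x l * (starRingEnd ℂ) b).re + w l * ‖b‖ ^ 2 := by
    intro l
    have e1 : ‖x l - b‖ ^ 2 = ‖x l‖ ^ 2 - 2 * (x l * (starRingEnd ℂ) b).re + ‖b‖ ^ 2 := by
      rw [← Complex.normSq_eq_norm_sq, ← Complex.normSq_eq_norm_sq, ← Complex.normSq_eq_norm_sq, Complex.normSq_sub]
      ring
    rw [e1, hx l]
    have e2 : ((w l : ℂ) * x l * (starRingEnd ℂ) b).re = w l * (x l * (starRingEnd ℂ) b).re := by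
      rw [mul_assoc, Complex.re_ofReal_mul]
    rw [e2]
    ring
  rw [Finset.sum_congr rfl (fun l _ => h1 l), Finset.sum_add_distrib, Finset.sum_sub_distrib, ← Finset.sum_mul,
    ← Finset.sum_mul, hw1, ← Finset.mul_sum, ← Complex.re_sum, ← Finset.sum_mul]
  have h2 : ∑ l, (w l : ℂ) * x l = b := by
    rw [hb, mom]
    exact Finset.sum_congr rfl fun l _ => by rw [pow_one]
  rw [h2, Complex.mul_conj, Complex.ofReal_re, Complex.normSq_eq_norm_sq]
  ring

/-- the second moment -/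
theorem XQM_mom2 {N : ℕ} (w : Fin N → ℝ) (x : Fin N → ℂ) (hA : Atomic N w x) :
    ∑ l, (w l : ℂ) * (x l - mom w x 1) ^ 2 = mom w x 2 - mom w x 1 ^ 2 := by
  obtain ⟨hw0, hw1, hx⟩ := hA
  set b := mom w x 1 with hb
  have h1 : ∀ l, (w l : ℂ) * (x l - b) ^ 2 = (w l : ℂ) * x l ^ 2 - 2 * b * ((w l : ℂ) * x l) + (w l : ℂ) * b ^ 2 := by
    intro l; ring
  have h2 : ∑ l, (w l : ℂ) * x l = b := by
    rw [hb, mom]
    exact Finset.sum_congr rfl fun l _ => by rw [pow_one]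
  have h3 : ∑ l, (w l : ℂ) = 1 := by
    rw [← Complex.ofReal_sum, hw1, Complex.ofReal_one]
  rw [Finset.sum_congr rfl (fun l _ => h1 l), Finset.sum_add_distrib, Finset.sum_sub_distrib, ← Finset.mul_sum,
    ← Finset.sum_mul, h2, h3]
  show mom w x 2 - 2 * b * b + 1 * b ^ 2 = mom w x 2 - b ^ 2
  ring

theorem XQM : XQM_stmt := by
  intro N w x m hA hm
  have hA2 := hA
  obtain ⟨hw0, hw1, hx⟩ := hA
  set β := mom w x with hβ
  set ω := ex (-2) β with hω
  have hr : Rec (-2) (mom w x) ω := ex_rec (-2) β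
  have hvar := XQM_var w x hA2
  have hm2 := XQM_mom2 w x hA2
  rw [← hβ] at hvar hm2
  have hD0 : 0 ≤ 1 - ‖β 1‖ ^ 2 := by
    rw [← hvar]
    exact Finset.sum_nonneg fun l _ => mul_nonneg (hw0 l) (sq_nonneg _)
  induction m, hm using Nat.le_induction with
  | base =>
    have o0 : ω 0 = 1 := hr.1
    have o1 : ω 1 = -2 * β 1 := by
      have h := hr.2 1
      rw [Finset.sum_range_succ, Finset.sum_range_zero, o0] at h
      simpa using h
    have o2 : ω 2 = 2 * β 1 ^ 2 - β 2 := by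
      have h := hr.2 2
      rw [Finset.sum_range_succ, Finset.sum_range_succ, Finset.sum_range_zero, o0, o1, ← hβ] at h
      have h2 : (2 : ℂ) * ω 2 = 2 * (2 * β 1 ^ 2 - β 2) := by
        have e : ((2 : ℕ) : ℂ) = 2 := by norm_num
        rw [e] at h
        rw [h]
        show -2 * (0 + β (2 - 0) * 1 + β (2 - 1) * (-2 * β 1)) = _
        norm_num
        ring
      exact mul_left_cancel₀ two_ne_zero h2
    have hg : ∀ y, gy ω y 2 = (y - β 1) ^ 2 - (β 2 - β 1 ^ 2) := by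
      intro y
      rw [gy_succ, gy_succ, gy_zero, o0, o1, o2]
      ring
    have hb : ‖β 2 - β 1 ^ 2‖ ≤ 1 - ‖β 1‖ ^ 2 := by
      rw [← hm2, ← hvar]
      refine (norm_sum_le _ _).trans (Finset.sum_le_sum fun l _ => ?_)
      rw [norm_mul, norm_pow, Complex.norm_real, Real.norm_of_nonneg (hw0 l)]
    have h1 : ∑ l, w l * ‖gy ω (x l) 2‖ ≤ ∑ l, (w l * ‖x l - β 1‖ ^ 2 + w l * ‖β 2 - β 1 ^ 2‖) := by
      refine Finset.sum_le_sum fun l _ => ?_
      rw [hg, ← mul_add]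
      refine mul_le_mul_of_nonneg_left ?_ (hw0 l)
      refine (norm_sub_le _ _).trans ?_
      rw [norm_pow]
    rw [Finset.sum_add_distrib, ← Finset.sum_mul, hw1, hvar] at h1
    refine h1.trans ?_
    push_cast
    linarith
  | succ n hn ih =>
    have hrec := XQM_rec w x ω (-2) hr n
    have hn0 : (0 : ℝ) < (n : ℝ) + 1 := by positivity
    have hω1 : ((n : ℝ) + 1) * ‖ω (n + 1)‖ ≤ 2 * ∑ l, w l * ‖gy ω (x l) n‖ := by
      have h1 : ‖((n + 1 : ℕ) : ℂ) * ω (n + 1)‖ = ((n : ℝ) + 1) * ‖ω (n + 1)‖ := by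
        rw [norm_mul, Complex.norm_natCast]
        push_cast
        ring
      rw [← h1, hrec, norm_mul]
      have h2 : ‖(-2 : ℂ)‖ = 2 := by simp
      rw [h2]
      refine mul_le_mul_of_nonneg_left ?_ (by norm_num)
      refine (norm_sum_le _ _).trans (Finset.sum_le_sum fun l _ => ?_)
      rw [norm_mul, norm_mul, hx l, one_mul, Complex.norm_real, Real.norm_of_nonneg (hw0 l)]
    have h3 : ∑ l, w l * ‖gy ω (x l) (n + 1)‖ ≤ ‖ω (n + 1)‖ + ∑ l, w l * ‖gy ω (x l) n‖ := by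
      have h4 : ‖ω (n + 1)‖ + ∑ l, w l * ‖gy ω (x l) n‖ = ∑ l, (w l * ‖ω (n + 1)‖ + w l * ‖gy ω (x l) n‖) := by
        rw [Finset.sum_add_distrib, ← Finset.sum_mul, hw1, one_mul]
      rw [h4]
      refine Finset.sum_le_sum fun l _ => ?_
      rw [← mul_add]
      refine mul_le_mul_of_nonneg_left ?_ (hw0 l)
      rw [gy_succ]
      refine (norm_add_le _ _).trans ?_
      rw [norm_mul, hx l, one_mul]
    have h5 : ‖ω (n + 1)‖ ≤ 2 * (∑ l, w l * ‖gy ω (x l) n‖) / ((n : ℝ) + 1) := by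
      rw [le_div_iff₀ hn0]
      linarith
    refine h3.trans ?_
    set q := ∑ l, w l * ‖gy ω (x l) n‖ with hq
    have h6 : ‖ω (n + 1)‖ + q ≤ q * (((n : ℝ) + 3) / ((n : ℝ) + 1)) := by
      have e : q * (((n : ℝ) + 3) / ((n : ℝ) + 1)) = 2 * q / ((n : ℝ) + 1) + q := by
        field_simp
        ring
      rw [e]
      linarith
    refine h6.trans ?_
    have h7 := mul_le_mul_of_nonneg_right ih (show 0 ≤ ((n : ℝ) + 3) / ((n : ℝ) + 1) by positivity)
    refine h7.trans (le_of_eq ?_)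
    push_cast
    field_simp
    ring

end Pool.Agent.GD
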